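import Pool.Agent.H180R2.MM.Main

/-! Moser's problem for the rectangles `1/n × 1/(n+1)`: for every bound `ρ` on the aspect ratio and
every sufficiently large `n₀`, every rectangle of area `1/n₀` with aspect ratio at most `ρ` (for
instance the square of area `1/n₀`) is perfectly packed by the rectangles `1/n × 1/(n+1)`,
`n ≥ n₀`. -/

namespace Pool.Agent.Results.MP_f14165_co.PerfectTailRect

open Pool.Agent.H180R2.MM Set

theorem fam : Fam (fun n : ℕ => 1 / (n : ℝ)) (fun n : ℕ => 1 / ((n : ℝ) + 1)) where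
  lo n _ := le_rfl
  le n hn := by
    have h : (1 : ℝ) ≤ n := by exact_mod_cast hn
    exact one_div_le_one_div_of_le (by linarith) (by linarith)
  up n _ := le_rfl
  near n hn := by
    have h : (1 : ℝ) ≤ n := by exact_mod_cast hn
    rw [div_sub_div _ _ (by linarith) (by linarith), div_le_div_iff₀ (by nlinarith) (by positivity)]
    nlinarith
  lipx m n hm hmn := by
    have h : (1 : ℝ) ≤ m := by exact_mod_cast hm
    have h' : (m : ℝ) ≤ n := by exact_mod_cast hmn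
    rw [div_sub_div _ _ (by linarith) (by linarith), div_le_div_iff₀ (by nlinarith) (by positivity)]
    have h3 : (0 : ℝ) ≤ ((n : ℝ) - m) * m * (n - m) := by
      have : (0 : ℝ) ≤ (n : ℝ) - m := by linarith
      positivity
    nlinarith
  lipy m n hm hmn := by
    have h : (1 : ℝ) ≤ m := by exact_mod_cast hm
    have h' : (m : ℝ) ≤ n := by exact_mod_cast hmn
    rw [div_sub_div _ _ (by linarith) (by linarith), div_le_div_iff₀ (by nlinarith) (by positivity)]
    have h3 : (0 : ℝ) ≤ (n : ℝ) - m := by linarith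
    have h4 : (m : ℝ) ^ 2 ≤ ((m : ℝ) + 1) * ((n : ℝ) + 1) := by nlinarith
    nlinarith
  lowx m n hm hmn := by
    have h : (1 : ℝ) ≤ m := by exact_mod_cast hm
    have h' : (m : ℝ) ≤ n := by exact_mod_cast hmn
    rw [div_sub_div _ _ (by linarith) (by linarith), div_le_div_iff₀ (by positivity) (by nlinarith)]
    have h3 : (0 : ℝ) ≤ (n : ℝ) - m := by linarith
    have h4 : (m : ℝ) * n ≤ ((n : ℝ) + 1) ^ 2 := by nlinarith
    nlinarith
  lowy m n hm hmn := by
    have h : (1 : ℝ) ≤ m := by exact_mod_cast hm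
    have h' : (m : ℝ) ≤ n := by exact_mod_cast hmn
    rw [div_sub_div _ _ (by linarith) (by linarith), div_le_div_iff₀ (by positivity) (by nlinarith)]
    have h3 : (0 : ℝ) ≤ (n : ℝ) - m := by linarith
    have h4 : ((m : ℝ) + 1) * ((n : ℝ) + 1) ≤ ((n : ℝ) + 1) ^ 2 := by nlinarith
    nlinarith

theorem tele (n₀ : ℕ) (h : 1 ≤ n₀) :
    ∑' i : ℕ, 1 / ((n₀ + i : ℕ) : ℝ) * (1 / (((n₀ + i : ℕ) : ℝ) + 1)) = 1 / (n₀ : ℝ) := by
  have hn : (1 : ℝ) ≤ n₀ := by exact_mod_cast h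
  apply HasSum.tsum_eq
  rw [hasSum_iff_tendsto_nat_of_nonneg]
  · have h1 : ∀ m : ℕ, ∑ i ∈ Finset.range m, 1 / ((n₀ + i : ℕ) : ℝ) * (1 / (((n₀ + i : ℕ) : ℝ) + 1)) =
        1 / (n₀ : ℝ) - 1 / ((n₀ : ℝ) + m) := by
      intro m
      induction m with
      | zero => simp
      | succ m ih =>
        rw [Finset.sum_range_succ, ih]
        push_cast
        have e1 : (0 : ℝ) < (n₀ : ℝ) + m := by positivity
        have e2 : (0 : ℝ) < (n₀ : ℝ) + m + 1 := by positivity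
        have e3 : (0 : ℝ) < (n₀ : ℝ) := by positivity
        field_simp
        ring
    simp_rw [h1]
    have h2 : Filter.Tendsto (fun m : ℕ => 1 / (n₀ : ℝ) - 1 / ((n₀ : ℝ) + m)) Filter.atTop
        (nhds (1 / (n₀ : ℝ) - 0)) := by
      apply Filter.Tendsto.sub tendsto_const_nhds
      apply Filter.Tendsto.div_atTop tendsto_const_nhds
      exact Filter.tendsto_atTop_add_const_left _ _ tendsto_natCast_atTop_atTop
    simpa using h2
  · intro i
    positivity

theorem result : ∀ ρ : ℝ, ∃ N : ℕ, ∀ n₀ ≥ N, ∀ a b : ℝ, 0 < a → 0 < b → a ≤ ρ * b → b ≤ ρ * a →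
    a * b = 1 / (n₀ : ℝ) →
    ∃ u v w h : ℕ → ℝ,
      (∀ n ≥ n₀, (w n = 1 / (n : ℝ) ∧ h n = 1 / ((n : ℝ) + 1)) ∨
        (w n = 1 / ((n : ℝ) + 1) ∧ h n = 1 / (n : ℝ))) ∧
      (∀ n ≥ n₀, 0 ≤ u n ∧ u n + w n ≤ a ∧ 0 ≤ v n ∧ v n + h n ≤ b) ∧
      ∀ m ≥ n₀, ∀ n ≥ n₀, m ≠ n →
        Disjoint (Ioo (u m) (u m + w m) ×ˢ Ioo (v m) (v m + h m))
          (Ioo (u n) (u n + w n) ×ˢ Ioo (v n) (v n + h n)) := by
  intro ρ
  obtain ⟨N, hN⟩ := mainThm fam (max ρ 4) (le_max_right _ _)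
  refine ⟨N + 1, fun n₀ hn₀ a b ha hb hab hba harea => ?_⟩
  obtain ⟨pos, h1, h2⟩ := hN n₀ (by omega) a b ha hb
    (hab.trans (mul_le_mul_of_nonneg_right (le_max_left _ _) hb.le))
    (hba.trans (mul_le_mul_of_nonneg_right (le_max_left _ _) ha.le))
    (by rw [harea, tele n₀ (by omega)])
  refine ⟨fun n => (pos n).x, fun n => (pos n).y, fun n => (pos n).w, fun n => (pos n).h, ?_, ?_, ?_⟩
  · intro n hn
    have := (h1 n hn).1
    unfold Match Pool.Agent.H180R2.MM.sq at this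
    exact this
  · intro n hn
    obtain ⟨g1, g2, g3, g4⟩ := (h1 n hn).2
    simp only at g1 g2 g3 g4
    exact ⟨g1, by linarith, g2, by linarith⟩
  · intro m hm n hn hmn
    have hd := h2 m hm n hn hmn
    unfold Disj at hd
    rw [Set.disjoint_left]
    rintro ⟨p, q⟩ ⟨hp1, hq1⟩ ⟨hp2, hq2⟩
    simp only [mem_Ioo] at hp1 hq1 hp2 hq2
    rcases hd with h | h | h | h <;> linarith [hp1.1, hp1.2, hq1.1, hq1.2, hp2.1, hp2.2, hq2.1, hq2.2]

end Pool.Agent.Results.MP_f14165_co.PerfectTailRect
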